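import Mathlib
import Pool.Agent.Z700.Defs
import Pool.Agent.N969.P15.Defs2

/-!
# Twists of `X_0(21)` by all negative fundamental discriminants `D = -n` such that `3` is not split
# and `7` is not inert in `ℚ(√D)`: definitions and statements

The definite side counts vectors of the ternary lattice `ℤ³` with Gram matrix
`[[3,0,0],[0,4,2],[0,2,4]]` (the trace zero part of `ℤ + 2 O`, `O` a maximal order of the
quaternion algebra ramified at `3` and `∞`), the indefinite side consists of binary forms of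
discriminant `4` and level `21`. Everything is the analogue of level `15` (`N969/P15/Defs`,
`Defs2`, `N973/P15/Defs3`) with `5` replaced by `3` and `3` replaced by `7`. All statements have been
verified numerically.
-/

set_option autoImplicit false

namespace Pool.Agent.N877.P21

open Finset
open Pool.Agent.Z700 (hh fac)
open Pool.Agent.N969.P15 (V3 Qc Qe Ev tw tb ep2 un psp psp2 c2 chE)

noncomputable section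

/-- the inner product of the ternary lattice -/
def ip (v w : V3) : ℤ :=
  3 * (v 0 * w 0) + 4 * (v 1 * w 1) + 4 * (v 2 * w 2) + 2 * (v 1 * w 2 + v 2 * w 1)

/-- the vectors of norm `n` -/
def vec (n : ℤ) : Finset V3 :=
  (Fintype.piFinset fun _ => Icc (-n) n).filter fun v => ip v v = n

/-- the number of vectors of norm `n` -/
def rr (n : ℤ) : ℤ := (vec n).card

/-- the number of vectors of norm `n` orthogonal to the base line modulo `7` -/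
def rr0 (n : ℤ) : ℤ := ((vec n).filter fun v => (7 : ℤ) ∣ 3 * v 1 + v 2).card

/-- the Gross sum -/
def cc (n : ℤ) : ℤ := if n % 7 = 0 then rr n - 8 * rr0 n else rr n - 4 * rr0 n

/-- the number of pairs of vectors with Gram matrix `(n1, b; b, n2)` -/
def cp (n1 b n2 : ℤ) : ℕ := ((vec n1 ×ˢ vec n2).filter fun q => ip q.1 q.2 = b).card

/-- the number of pairs with inner product divisible by `7` -/
def cp0 (n1 n2 : ℤ) : ℕ := ((vec n1 ×ˢ vec n2).filter fun q => (7 : ℤ) ∣ ip q.1 q.2).card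

/-- the number of pairs with inner product `b` which are proportional modulo `7` -/
def cp7 (n1 b n2 : ℤ) : ℕ := ((vec n1 ×ˢ vec n2).filter fun q =>
  ip q.1 q.2 = b ∧ ∀ i, (7 : ℤ) ∣ n2 * q.1 i - b * q.2 i).card

/-! ### the classes -/

/-- `7` splits in `ℚ(√-n)` -/
def Sp7 (n : ℕ) : Prop := n % 7 = 3 ∨ n % 7 = 5 ∨ n % 7 = 6

/-- `7` split, `3` inert, odd discriminants -/
def Cls0 (n : ℕ) : Prop := Squarefree n ∧ n % 4 = 3 ∧ n % 3 = 1 ∧ Sp7 n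

/-- `7` split, `3` inert, even discriminants -/
def Cls0e (n : ℕ) : Prop := Ev n ∧ n % 3 = 1 ∧ Sp7 n

/-- `7 ∣ n`, `3` inert, odd discriminants -/
def Cl7 (n : ℕ) : Prop := Squarefree n ∧ n % 4 = 3 ∧ 7 ∣ n ∧ n % 3 = 1

/-- `7 ∣ n`, `3` inert, even discriminants -/
def Cl7e (n : ℕ) : Prop := Ev n ∧ 7 ∣ n ∧ n % 3 = 1

/-- `21 ∣ n`, odd discriminants -/
def Cl21 (n : ℕ) : Prop := Squarefree n ∧ n % 4 = 3 ∧ 7 ∣ n ∧ 3 ∣ n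

/-- `21 ∣ n`, even discriminants -/
def Cl21e (n : ℕ) : Prop := Ev n ∧ 7 ∣ n ∧ 3 ∣ n

/-- `3 ∣ n`, `7` split, odd discriminants -/
def Cl3 (n : ℕ) : Prop := Squarefree n ∧ n % 4 = 3 ∧ Sp7 n ∧ 3 ∣ n

/-- `3 ∣ n`, `7` split, even discriminants -/
def Cl3e (n : ℕ) : Prop := Ev n ∧ Sp7 n ∧ 3 ∣ n

/-! ### local densities -/

/-- the local densities away from `7` -/
def lrest (n1 D : ℕ) : ℤ :=
  if Odd (D.factorization 3) then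
    tw n1 D * ∏ l ∈ ((D.primeFactors.erase 2).erase 3).erase 7, fac n1 D l
  else 0

/-- the local densities -/
def loc (n1 D : ℕ) : ℤ :=
  if Odd (D.factorization 3) then
    tw n1 D * ∏ l ∈ (D.primeFactors.erase 2).erase 3, fac n1 D l
  else 0

/-- the local densities with the count at `7` of the pairs with a common line -/
def loc7 (n1 D : ℕ) : ℤ := (D.factorization 7 : ℤ) * lrest n1 D

/-- the local densities for two even norms -/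
def locE (n1 : ℕ) (b : ℤ) (D : ℕ) : ℤ :=
  if Odd (D.factorization 3) then
    tb b * ∏ l ∈ (D.primeFactors.erase 2).erase 3, fac n1 D l
  else 0

/-- the same away from `7`, with the count at `7` -/
def loc7E (n1 : ℕ) (b : ℤ) (D : ℕ) : ℤ :=
  if Odd (D.factorization 3) then
    (D.factorization 7 : ℤ) * (tb b * ∏ l ∈ ((D.primeFactors.erase 2).erase 3).erase 7, fac n1 D l)
  else 0

/-- the local densities for `3 ∣ n1` (twice the value) -/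
def loc3 (n1 D : ℕ) : ℤ :=
  if 3 ∣ D then (1 - hh n1 D 3) * (tw n1 D * ∏ l ∈ (D.primeFactors.erase 2).erase 3, fac n1 D l)
  else 0

/-- the local densities for `3 ∣ n1` and two even norms (twice the value) -/
def loc3E (n1 : ℕ) (b : ℤ) (D : ℕ) : ℤ :=
  if 3 ∣ D then (1 - hh n1 D 3) * (tb b * ∏ l ∈ (D.primeFactors.erase 2).erase 3, fac n1 D l)
  else 0

/-- the same without the factor at `7` -/
def lc3 (n1 D : ℕ) : ℤ :=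
  if 3 ∣ D then (1 - hh n1 D 3) *
    (tw n1 D * ∏ l ∈ ((D.primeFactors.erase 2).erase 3).erase 7, fac n1 D l)
  else 0

/-- the same without the factor at `7`, even norms -/
def lc3E (n1 : ℕ) (b : ℤ) (D : ℕ) : ℤ :=
  if 3 ∣ D then (1 - hh n1 D 3) *
    (tb b * ∏ l ∈ ((D.primeFactors.erase 2).erase 3).erase 7, fac n1 D l)
  else 0

/-! ### pair counts -/

/-- PC: the number of pairs of vectors with given Gram matrix -/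
def S_PC : Prop := ∀ (n1 n2 : ℕ) (b : ℤ) (D : ℕ), Squarefree n1 → n1 % 4 = 3 → ¬ 3 ∣ n1 →
  0 < D → (D : ℤ) = n1 * n2 - b ^ 2 → (cp n1 b n2 : ℤ) = 12 * loc n1 D

/-- PCE: even norms (`n2` is any multiple of `4`) -/
def S_PCE : Prop := ∀ (n1 n2 : ℕ) (b : ℤ) (D : ℕ), Ev n1 → n1 % 3 = 1 → 4 ∣ n2 →
  0 < D → (D : ℤ) = n1 * n2 - b ^ 2 → (cp n1 b n2 : ℤ) = 12 * locE n1 b D

/-- PC3: `3 ∣ n1` -/
def S_PC3 : Prop := ∀ (n1 n2 : ℕ) (b : ℤ) (D : ℕ), Squarefree n1 → n1 % 4 = 3 → 3 ∣ n1 →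
  0 < D → (D : ℤ) = n1 * n2 - b ^ 2 → (cp n1 b n2 : ℤ) = 6 * loc3 n1 D

/-- PC3E: `3 ∣ n1`, even norms -/
def S_PC3E : Prop := ∀ (n1 n2 : ℕ) (b : ℤ) (D : ℕ), Ev n1 → 3 ∣ n1 → 4 ∣ n2 →
  0 < D → (D : ℤ) = n1 * n2 - b ^ 2 → (cp n1 b n2 : ℤ) = 6 * loc3E n1 b D

/-! ### the relations with the Gross sums -/

/-- REL77 -/
def S_REL77 : Prop := ∀ n1 n2 : ℕ, 7 ∣ n1 → ¬ 49 ∣ n1 → 7 ∣ n2 → ¬ 49 ∣ n2 →
  24 * (cp0 n1 n2 : ℤ) = 3 * rr n1 * rr n2 + cc n1 * cc n2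

/-- REL75 -/
def S_REL75 : Prop := ∀ n1 n2 : ℕ, 7 ∣ n1 → ¬ 49 ∣ n1 → Sp7 n2 →
  12 * (cp0 n1 n2 : ℤ) = 3 * rr n1 * rr n2 + cc n1 * cc n2

/-- REL71: there are no such pairs if `7` is inert for the second vector -/
def S_REL71 : Prop := ∀ n1 n2 : ℕ, 7 ∣ n1 → ¬ 49 ∣ n1 → (n2 % 7 = 1 ∨ n2 % 7 = 2 ∨ n2 % 7 = 4) →
  cp0 n1 n2 = 0

/-- REL55: the pairs with a common isotropic line modulo `7`, with given residues modulo `7`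
and `3` -/
def S_REL55 : Prop := ∀ n1 n2 : ℕ, Sp7 n1 → Sp7 n2 → ¬ 3 ∣ n1 → ¬ 3 ∣ n2 →
  ∀ r7 r3 : ℤ, 0 < r7 → r7 < 7 → (7 : ℤ) ∣ r7 ^ 2 - n1 * n2 →
  0 < r3 → r3 < 3 → (3 : ℤ) ∣ r3 ^ 2 - n1 * n2 →
  ∀ B : ℤ, (n1 : ℤ) * n2 < B ^ 2 → 0 < B →
  24 * ∑ b ∈ (Ioo (-B) B).filter (fun b : ℤ => b % 7 = r7 ∧ b % 3 = r3),
    ((cp n1 b n2 : ℤ) + cp7 n1 b n2) = 3 * rr n1 * rr n2 + cc n1 * cc n2

/-- REL3: the same for `3 ∣ n1`, `3 ∣ n2` -/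
def S_REL3 : Prop := ∀ n1 n2 : ℕ, Sp7 n1 → Sp7 n2 → 3 ∣ n1 → 3 ∣ n2 →
  ∀ r7 : ℤ, 0 < r7 → r7 < 7 → (7 : ℤ) ∣ r7 ^ 2 - n1 * n2 →
  ∀ B : ℤ, (n1 : ℤ) * n2 < B ^ 2 → 0 < B →
  12 * ∑ b ∈ (Ioo (-B) B).filter (fun b : ℤ => b % 7 = r7),
    ((cp n1 b n2 : ℤ) + cp7 n1 b n2) = 3 * rr n1 * rr n2 + cc n1 * cc n2

/-- CP7: evaluation of the counts for a given inner product -/
def S_CP7 : Prop := ∀ (n1 n2 : ℕ) (b : ℤ) (D : ℕ), Squarefree n1 → n1 % 4 = 3 → Sp7 n1 → Sp7 n2 →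
  ¬ 3 ∣ n1 → 0 < D → 7 ∣ D → (D : ℤ) = n1 * n2 - b ^ 2 →
  (cp n1 b n2 : ℤ) + cp7 n1 b n2 = 24 * loc7 n1 D

/-- CP7E -/
def S_CP7E : Prop := ∀ (n1 n2 : ℕ) (b : ℤ) (D : ℕ), Ev n1 → n1 % 3 = 1 → Sp7 n1 → 4 ∣ n2 →
  Sp7 n2 → 0 < D → 7 ∣ D → (D : ℤ) = n1 * n2 - b ^ 2 →
  (cp n1 b n2 : ℤ) + cp7 n1 b n2 = 24 * loc7E n1 b D

/-- CP73: evaluation of the counts, `3 ∣ n1` -/
def S_CP73 : Prop := ∀ (n1 n2 : ℕ) (b : ℤ) (D : ℕ), Squarefree n1 → n1 % 4 = 3 → Sp7 n1 →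
  Sp7 n2 → 3 ∣ n1 → 0 < D → 7 ∣ D → (D : ℤ) = n1 * n2 - b ^ 2 →
  (cp n1 b n2 : ℤ) - cp7 n1 b n2 = 12 * lc3 n1 D

/-- CP73E -/
def S_CP73E : Prop := ∀ (n1 n2 : ℕ) (b : ℤ) (D : ℕ), Ev n1 → 3 ∣ n1 → Sp7 n1 → 4 ∣ n2 →
  Sp7 n2 → 0 < D → 7 ∣ D → (D : ℤ) = n1 * n2 - b ^ 2 →
  (cp n1 b n2 : ℤ) - cp7 n1 b n2 = 12 * lc3E n1 b D

/-- the arithmetic side of the bilinear identities, `N = n` or `N = 2 n` -/
def AA (n N : ℕ) : ℤ := ∑ T ∈ (range N).filter (fun T => 3 ∣ T ∧ 7 ∣ N - T),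
  loc7 n (4 * (N - T) * T)

/-- the same for even discriminants -/
def AAe (n N : ℕ) : ℤ := ∑ T ∈ (range N).filter (fun T => 3 ∣ T ∧ 7 ∣ N - T),
  loc7E n ((T : ℤ) - ((N - T : ℕ) : ℤ)) (4 * (N - T) * T)

/-- BIL: the bilinear identities -/
def S_BIL1 : Prop := ∀ n : ℕ, Cls0 n → 576 * AA n n = 3 * rr n ^ 2 + cc n ^ 2

def S_BIL2 : Prop := ∀ n : ℕ, Cls0 n →
  576 * AA n (2 * n) = 3 * rr (4 * n) * rr n + cc (4 * n) * cc n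

def S_BIL1E : Prop := ∀ n : ℕ, Cls0e n → 576 * AAe n n = 3 * rr n ^ 2 + cc n ^ 2

def S_BIL2E : Prop := ∀ n : ℕ, Cls0e n →
  576 * AAe n (2 * n) = 3 * rr (4 * n) * rr n + cc (4 * n) * cc n

/-! ### the Hecke relations at `2` -/

/-- HE: `7` split -/
def S_HE : Prop := ∀ n : ℕ, n % 4 = 3 → Sp7 n →
  rr (4 * n) = (3 - ep2 n) * rr n ∧ rr0 (4 * n) = rr n - (1 + ep2 n) * rr0 n

/-- HE7: `7 ∣ n` -/
def S_HE7 : Prop := ∀ n : ℕ, n % 4 = 3 → 7 ∣ n → ¬ 49 ∣ n →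
  rr (4 * n) = (3 - ep2 n) * rr n ∧ 2 * rr0 (4 * n) = rr n - 2 * (1 + ep2 n) * rr0 n

/-- HEE: ramified case, `7` split -/
def S_HEE : Prop := ∀ m : ℕ, (m % 4 = 1 ∨ m % 4 = 2) → Sp7 (4 * m) →
  rr (16 * m) = 3 * rr (4 * m) ∧ rr0 (16 * m) = rr (4 * m) - rr0 (4 * m)

/-- HE7E -/
def S_HE7E : Prop := ∀ m : ℕ, (m % 4 = 1 ∨ m % 4 = 2) → 7 ∣ m → ¬ 49 ∣ m →
  rr (16 * m) = 3 * rr (4 * m) ∧ 2 * rr0 (16 * m) = rr (4 * m) - 2 * rr0 (4 * m)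

/-! ### parity -/

/-- R: the parity of the number of vectors -/
def S_R : Prop := ∀ n : ℕ, Squarefree n → n % 4 = 3 → n % 3 = 1 →
  ∃ g : ℤ, rr n = 2 ^ (n.primeFactors.card + 1) * g ∧ (Odd g ↔ Qc n)

/-- RE -/
def S_RE : Prop := ∀ n : ℕ, Ev n → n % 3 = 1 → 4 < n →
  ∃ g : ℤ, rr n = 2 ^ (n.primeFactors.card + 1) * g ∧ (Odd g ↔ Qe n)

/-- R3: `3 ∣ n` -/
def S_R3 : Prop := ∀ n : ℕ, Squarefree n → n % 4 = 3 → 3 ∣ n →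
  ∃ g : ℤ, rr n = 2 ^ n.primeFactors.card * g ∧ (Odd g ↔ Qc n)

/-- R3E -/
def S_R3E : Prop := ∀ n : ℕ, Ev n → 3 ∣ n →
  ∃ g : ℤ, rr n = 2 ^ n.primeFactors.card * g ∧ (Odd g ↔ Qe n)

/-- PAR: the parity of the Gross sum, `3` inert -/
def S_PAR : Prop := ∀ n : ℕ, (Cls0 n ∨ Cl7 n) →
  ∃ y : ℤ, cc n = 2 ^ (n.primeFactors.card + 1) * y ∧ (Odd y ↔ Qc n)

/-- PARE -/
def S_PARE : Prop := ∀ n : ℕ, (Cls0e n ∨ Cl7e n) →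
  ∃ y : ℤ, cc n = 2 ^ (n.primeFactors.card + 1) * y ∧ (Odd y ↔ Qe n)

/-- PARA3: the parity of the Gross sum, `3 ∣ n` -/
def S_PARA3 : Prop := ∀ n : ℕ, (Cl21 n ∨ Cl3 n) →
  ∃ y : ℤ, cc n = 2 ^ n.primeFactors.card * y ∧ (Odd y ↔ Qc n)

/-- PARA3E -/
def S_PARA3E : Prop := ∀ n : ℕ, (Cl21e n ∨ Cl3e n) →
  ∃ y : ℤ, cc n = 2 ^ n.primeFactors.card * y ∧ (Odd y ↔ Qe n)

/-! ### the symbol -/

/-- the forms `A x² + B x y + C y²` of discriminant `4` entering the symbol -/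
def Fm (q : ℤ × ℤ × ℤ) : Prop := q.2.1 ^ 2 - 4 * q.1 * q.2.2 = 4 ∧ (21 : ℤ) ∣ q.1 ∧
  (q.2.1 % 42 = 26 ∨ q.2.1 % 42 = 16)

/-- the weight of a form: a sign for the orientation times `-1` for the imprimitive forms -/
def cQ (q : ℤ × ℤ × ℤ) : ℤ := (if q.2.1 % 42 = 26 then 1 else -1) *
  (if (2 : ℤ) ∣ q.1 ∧ (2 : ℤ) ∣ q.2.2 then -1 else 1)

open Classical in
/-- the number of forms changing sign between `∞` and `x / M` -/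
def Fp (x M : ℤ) : ℤ := ∑ᶠ q : ℤ × ℤ × ℤ,
  if Fm q ∧ 0 < q.1 ∧ q.1 * x ^ 2 + q.2.1 * x * M + q.2.2 * M ^ 2 < 0 then cQ q else 0

/-- the forms joining the cusp classes of `0` and `1 / 3` -/
def FmA (q : ℤ × ℤ × ℤ) : Prop := q.2.1 ^ 2 - 4 * q.1 * q.2.2 = 4 ∧ (3 : ℤ) ∣ q.1 ∧
  ¬ (7 : ℤ) ∣ q.1 ∧ (q.2.1 % 6 = 2 ∨ q.2.1 % 6 = 4)

/-- their weight -/
def cA (q : ℤ × ℤ × ℤ) : ℤ := (if q.2.1 % 6 = 2 then 1 else -1) *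
  (if (2 : ℤ) ∣ q.1 ∧ (2 : ℤ) ∣ q.2.2 then -1 else 1)

open Classical in
/-- the number of these forms changing sign between `∞` and `x / M` -/
def FA (x M : ℤ) : ℤ := ∑ᶠ q : ℤ × ℤ × ℤ,
  if FmA q ∧ 0 < q.1 ∧ q.1 * x ^ 2 + q.2.1 * x * M + q.2.2 * M ^ 2 < 0 then cA q else 0

/-! ### the divisor sums -/

/-- the divisor sum of the indefinite side -/
def WW (n S T : ℕ) : ℤ :=
  ∑ a ∈ S.divisors.filter (7 ∣ ·), ∑ a' ∈ T.divisors.filter (3 ∣ ·),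
    ∏ p ∈ n.primeFactors, psp p a a' (S / a) (T / a')

/-- the divisor sum of the indefinite side, even discriminants -/
def WWe (n S T : ℕ) : ℤ :=
  ∑ a ∈ S.divisors.filter (7 ∣ ·), ∑ a' ∈ T.divisors.filter (3 ∣ ·),
    psp2 n a a' (S / a) (T / a') * ∏ p ∈ n.primeFactors.erase 2, psp p a a' (S / a) (T / a')

/-- the divisor sum for the forms `FmA` -/
def WWA (n S T : ℕ) : ℤ :=
  ∑ a ∈ S.divisors.filter (fun a => ¬ 7 ∣ a), ∑ a' ∈ T.divisors.filter (fun a' => 3 ∣ a' ∧ ¬ 7 ∣ a'),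
    ∏ p ∈ n.primeFactors, psp p a a' (S / a) (T / a')

/-- the divisor sum for the forms `FmA`, even discriminants -/
def WWAe (n S T : ℕ) : ℤ :=
  ∑ a ∈ S.divisors.filter (fun a => ¬ 7 ∣ a), ∑ a' ∈ T.divisors.filter (fun a' => 3 ∣ a' ∧ ¬ 7 ∣ a'),
    psp2 n a a' (S / a) (T / a') * ∏ p ∈ n.primeFactors.erase 2, psp p a a' (S / a) (T / a')

/-- the sum over the cusps for `a Y + a' X = N` and a function on the integers -/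
def WX (χ : ℤ → ℤ) (n N : ℕ) : ℤ := ∑ T ∈ (range N).filter (fun T => 3 ∣ T ∧ 7 ∣ N - T),
  ∑ a ∈ (N - T).divisors.filter (7 ∣ ·), ∑ a' ∈ T.divisors.filter (3 ∣ ·),
    ∑ u ∈ (un n).filter (fun u : ℕ => (n : ℤ) ∣ (a : ℤ) * (u : ℤ) + ((T / a' : ℕ) : ℤ) ∧
      (n : ℤ) ∣ (a' : ℤ) * (u : ℤ) - (((N - T) / a : ℕ) : ℤ)), χ u

/-- the sum over the cusps for the forms `FmA` -/
def WXA (χ : ℤ → ℤ) (n N : ℕ) : ℤ := ∑ T ∈ (range N).filter (fun T => 3 ∣ T),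
  ∑ a ∈ (N - T).divisors.filter (fun a => ¬ 7 ∣ a),
    ∑ a' ∈ T.divisors.filter (fun a' => 3 ∣ a' ∧ ¬ 7 ∣ a'),
      ∑ u ∈ (un n).filter (fun u : ℕ => (n : ℤ) ∣ (a : ℤ) * (u : ℤ) + ((T / a' : ℕ) : ℤ) ∧
        (n : ℤ) ∣ (a' : ℤ) * (u : ℤ) - (((N - T) / a : ℕ) : ℤ)), χ u

/-- C1A: the forms and the cusps as factorizations (all odd functions) -/
def S_C1A : Prop := ∀ n : ℕ, 1 < n → Nat.Coprime n 21 →
  ∀ χ : ℤ → ℤ, (∀ u : ℤ, χ (n - u) = -χ u) →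
  ∑ u ∈ un n, χ u * Fp u n = 2 * (WX χ n (2 * n) - 3 * WX χ n n)

/-- C1AA: the same for the forms `FmA` -/
def S_C1AA : Prop := ∀ n : ℕ, 1 < n → ∀ χ : ℤ → ℤ, (∀ u : ℤ, χ (n - u) = -χ u) →
  ∑ u ∈ un n, χ u * FA u n = 2 * (WXA χ n (2 * n) - 3 * WXA χ n n)

/-! ### evaluation of the divisor sums -/

def S_C2A : Prop := ∀ n : ℕ, Cls0 n → ∀ T : ℕ, 0 < T → T < n → 3 ∣ T → 7 ∣ n - T →
  WW n (n - T) T = - loc7 n (4 * (n - T) * T)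

def S_C2B : Prop := ∀ n : ℕ, Cls0 n → ∀ T : ℕ, 0 < T → T < 2 * n → 3 ∣ T → 7 ∣ 2 * n - T →
  WW n (2 * n - T) T = - (loc7 n (4 * (2 * n - T) * T) +
    if 2 ∣ T then ep2 n * loc7 n ((2 * n - T) * T) else 0)

def S_C2E : Prop := ∀ n : ℕ, Cls0e n → ∀ N : ℕ, (N = n ∨ N = 2 * n) →
  ∀ T : ℕ, 0 < T → T < N → 3 ∣ T → 7 ∣ N - T →
  WWe n (N - T) T = - loc7E n ((T : ℤ) - ((N - T : ℕ) : ℤ)) (4 * (N - T) * T)

/-- C27: `7 ∣ n`, `3` inert -/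
def S_C27A : Prop := ∀ n : ℕ, Cl7 n → ∀ T : ℕ, 0 < T → T < n → 3 ∣ T → ¬ 7 ∣ T →
  WWA n (n - T) T = - loc n (4 * (n - T) * T)

def S_C27B : Prop := ∀ n : ℕ, Cl7 n → ∀ T : ℕ, 0 < T → T < 2 * n → 3 ∣ T → ¬ 7 ∣ T →
  WWA n (2 * n - T) T = - (loc n (4 * (2 * n - T) * T) +
    if 2 ∣ T then ep2 n * loc n ((2 * n - T) * T) else 0)

def S_C27E : Prop := ∀ n : ℕ, Cl7e n → ∀ N : ℕ, (N = n ∨ N = 2 * n) →
  ∀ T : ℕ, 0 < T → T < N → 3 ∣ T → ¬ 7 ∣ T →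
  WWAe n (N - T) T = - locE n ((T : ℤ) - ((N - T : ℕ) : ℤ)) (4 * (N - T) * T)

/-- C23: `3 ∣ n` -/
def S_C23A : Prop := ∀ n : ℕ, (Cl21 n ∨ Cl3 n) → ∀ T : ℕ, 0 < T → T < n → 3 ∣ T →
  (7 ∣ n → ¬ 7 ∣ T) → 2 * WWA n (n - T) T = - lc3 n (4 * (n - T) * T)

def S_C23B : Prop := ∀ n : ℕ, (Cl21 n ∨ Cl3 n) → ∀ T : ℕ, 0 < T → T < 2 * n → 3 ∣ T →
  (7 ∣ n → ¬ 7 ∣ T) → 2 * WWA n (2 * n - T) T = - (lc3 n (4 * (2 * n - T) * T) +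
    if 2 ∣ T then ep2 n * lc3 n ((2 * n - T) * T) else 0)

def S_C23E : Prop := ∀ n : ℕ, (Cl21e n ∨ Cl3e n) → ∀ N : ℕ, (N = n ∨ N = 2 * n) →
  ∀ T : ℕ, 0 < T → T < N → 3 ∣ T → (7 ∣ n → ¬ 7 ∣ T) →
  2 * WWAe n (N - T) T = - lc3E n ((T : ℤ) - ((N - T : ℕ) : ℤ)) (4 * (N - T) * T)

/-! ### the diagonal identities -/

def S_DIAG : Prop := ∀ n : ℕ, Cls0 n →
  72 * ∑ u ∈ un n, jacobiSym u n * Fp u n = cc n ^ 2

def S_DIAGE : Prop := ∀ n : ℕ, Cls0e n →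
  72 * ∑ u ∈ un n, chE n u * Fp u n = cc n ^ 2

def S_DIAG7 : Prop := ∀ n : ℕ, Cl7 n →
  72 * ∑ u ∈ un n, jacobiSym u n * FA u n = -cc n ^ 2

def S_DIAG7E : Prop := ∀ n : ℕ, Cl7e n →
  72 * ∑ u ∈ un n, chE n u * FA u n = -cc n ^ 2

def S_DIAG21 : Prop := ∀ n : ℕ, Cl21 n →
  36 * ∑ u ∈ un n, jacobiSym u n * FA u n = -cc n ^ 2

def S_DIAG21E : Prop := ∀ n : ℕ, Cl21e n →
  36 * ∑ u ∈ un n, chE n u * FA u n = -cc n ^ 2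

def S_DIAG3 : Prop := ∀ n : ℕ, Cl3 n →
  36 * ∑ u ∈ un n, jacobiSym u n * FA u n = -(2 * cc n ^ 2)

def S_DIAG3E : Prop := ∀ n : ℕ, Cl3e n →
  36 * ∑ u ∈ un n, chE n u * FA u n = -(2 * cc n ^ 2)

end

end Pool.Agent.N877.P21
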